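import Pool.Agent.helper24.ISL.Spec

/-! # Row SEQ -/

set_option autoImplicit false

namespace Pool.Agent.ISL

open Matrix Filter Topology Polynomial

/-- the polynomial `∑ l^(k-i) X^i - 1`. -/
noncomputable def SEQ_P (k : ℕ) (l : ℂ) : Polynomial ℂ :=
  (∑ i ∈ Finset.range (k + 1), C (l ^ (k - i)) * X ^ i) - 1

theorem SEQ_coeff (k : ℕ) (l : ℂ) (m : ℕ) :
    (SEQ_P k l).coeff m = (if m < k + 1 then l ^ (k - m) else 0) - (if m = 0 then 1 else 0) := by
  unfold SEQ_P
  rw [coeff_sub, finset_sum_coeff]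
  simp only [coeff_C_mul_X_pow]
  rw [Finset.sum_ite_eq, coeff_one]
  simp only [Finset.mem_range]

theorem SEQ_deg (k : ℕ) (hk : 1 ≤ k) (l : ℂ) : (SEQ_P k l).natDegree = k ∧ (SEQ_P k l).Monic := by
  have h1 : (SEQ_P k l).natDegree ≤ k := by
    rw [natDegree_le_iff_coeff_eq_zero]
    intro N hN
    rw [SEQ_coeff, if_neg (by omega), if_neg (by omega), sub_zero]
  have h2 : (SEQ_P k l).coeff k = 1 := by
    rw [SEQ_coeff, if_pos (by omega), if_neg (by omega), Nat.sub_self, pow_zero, sub_zero]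
  exact ⟨natDegree_eq_of_le_of_coeff_ne_zero h1 (by rw [h2]; exact one_ne_zero),
    monic_of_natDegree_le_of_coeff_eq_one k h1 h2⟩

theorem SEQ_eval (k : ℕ) (l μ : ℂ) :
    (SEQ_P k l).eval μ = (∑ i ∈ Finset.range (k + 1), μ ^ i * l ^ (k - i)) - 1 := by
  unfold SEQ_P
  rw [eval_sub, eval_finset_sum, eval_one]
  congr 1
  refine Finset.sum_congr rfl fun i _ => ?_
  rw [eval_mul, eval_C, eval_pow, eval_X, mul_comm]

theorem SEQ (h1 : SEL_stmt) (h2 : DOM_stmt) : SEQ_stmt := by
  intro n hn s hs hne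
  obtain ⟨k, rfl⟩ : ∃ k, n = k + 1 := ⟨n - 1, by omega⟩
  have hk : 1 ≤ k := by omega
  obtain ⟨l, hl1, hln, hμ⟩ := h1 (k + 1) hn
  have hl0 : 0 < l := zero_lt_one.trans hl1
  -- the real sequence
  set v : ℕ → ℝ := fun j => (∑ i ∈ Finset.range (k + 1), l ^ (k - i) * ((s (j + i) : ℚ) : ℝ)) -
    ((s j : ℚ) : ℝ) with hv
  have hvs : ∀ j, v (j + 1) = l * v j := by
    intro j
    have e1 := Finset.sum_range_succ' (fun i => l ^ (k + 1 - i) * ((s (j + i) : ℚ) : ℝ)) (k + 1)
    have e2 := Finset.sum_range_succ (fun i => l ^ (k + 1 - i) * ((s (j + i) : ℚ) : ℝ)) (k + 1)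
    rw [e2] at e1
    simp only [Nat.sub_self, pow_zero, one_mul, Nat.sub_zero, add_zero] at e1
    have e3 : ∑ i ∈ Finset.range (k + 1), l ^ (k + 1 - (i + 1)) * ((s (j + (i + 1)) : ℚ) : ℝ) =
        ∑ i ∈ Finset.range (k + 1), l ^ (k - i) * ((s (j + 1 + i) : ℚ) : ℝ) := by
      refine Finset.sum_congr rfl fun i _ => ?_
      rw [Nat.add_sub_add_right, show j + (i + 1) = j + 1 + i by ring]
    have e4 : ∑ i ∈ Finset.range (k + 1), l ^ (k + 1 - i) * ((s (j + i) : ℚ) : ℝ) =
        l * ∑ i ∈ Finset.range (k + 1), l ^ (k - i) * ((s (j + i) : ℚ) : ℝ) := by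
      rw [Finset.mul_sum]
      refine Finset.sum_congr rfl fun i hi => ?_
      have : k + 1 - i = (k - i) + 1 := by
        have := Finset.mem_range.1 hi
        omega
      rw [this, pow_succ]
      ring
    rw [e3, e4, hln] at e1
    have e5 : ((s (j + (k + 1)) : ℚ) : ℝ) = ((s (j + 1) : ℚ) : ℝ) + ((s j : ℚ) : ℝ) := by
      rw [hs j]
      push_cast
      ring
    rw [e5] at e1
    simp only [hv]
    linarith
  have hvj : ∀ j, v j = l ^ j * v 0 := by
    intro j
    induction j with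
    | zero => rw [pow_zero, one_mul]
    | succ j ih => rw [hvs, ih, pow_succ]; ring
  -- `v 0` is not zero
  have hv0 : v 0 ≠ 0 := by
    intro h0
    set Q : Polynomial ℚ := (∑ i ∈ Finset.range (k + 1), C (s i) * X ^ (k - i)) - C (s 0) with hQ
    have hQl : aeval l Q = 0 := by
      rw [hQ, map_sub, map_sum, aeval_C]
      have e1 : ∑ i ∈ Finset.range (k + 1), (aeval l) (C (s i) * X ^ (k - i)) =
          ∑ i ∈ Finset.range (k + 1), l ^ (k - i) * ((s (0 + i) : ℚ) : ℝ) := by
        refine Finset.sum_congr rfl fun i _ => ?_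
        rw [map_mul, aeval_C, map_pow, aeval_X, zero_add, mul_comm]
        rfl
      rw [e1]
      exact h0
    have hQc : ∀ m, Q.coeff m = (∑ i ∈ Finset.range (k + 1), if m = k - i then s i else 0) -
        (if m = 0 then s 0 else 0) := by
      intro m
      rw [hQ, coeff_sub, finset_sum_coeff, coeff_C]
      simp only [coeff_C_mul_X_pow]
    have hirr : Irreducible (X ^ (k + 1) + (-X - 1) : Polynomial ℚ) := by
      have := X_pow_sub_X_sub_one_irreducible_rat (n := k + 1) (by omega)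
      rwa [show (X ^ (k + 1) - X - 1 : Polynomial ℚ) = X ^ (k + 1) + (-X - 1) by ring] at this
    have hd1 : degree (-X - 1 : Polynomial ℚ) < ((k + 1 : ℕ) : WithBot ℕ) := by
      have h3 : degree (-X - 1 : Polynomial ℚ) ≤ 1 := by compute_degree
      refine lt_of_le_of_lt h3 ?_
      exact_mod_cast (by omega : 1 < k + 1)
    have hmon : (X ^ (k + 1) + (-X - 1) : Polynomial ℚ).Monic := monic_X_pow_add hd1
    have hroot : aeval l (X ^ (k + 1) + (-X - 1) : Polynomial ℚ) = 0 := by
      simp only [map_add, map_sub, map_neg, map_pow, aeval_X, map_one]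
      linarith
    have hmin := minpoly.eq_of_irreducible_of_monic hirr hroot hmon
    have hdeg : ((k + 1 : ℕ) : WithBot ℕ) ≤ degree (minpoly ℚ l) := by
      rw [← hmin]
      refine le_degree_of_ne_zero ?_
      have : (X ^ (k + 1) + (-X - 1) : Polynomial ℚ).coeff (k + 1) = 1 := by
        rw [coeff_add, coeff_X_pow_self, coeff_eq_zero_of_degree_lt hd1, add_zero]
      rw [this]
      exact one_ne_zero
    have hQ0 : Q = 0 := by
      by_contra hQn
      have h3 := minpoly.degree_le_of_ne_zero ℚ l hQn hQl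
      have h4 : Q.natDegree ≤ k := by
        rw [natDegree_le_iff_coeff_eq_zero]
        intro N hN
        rw [hQc, if_neg (by omega), sub_zero]
        refine Finset.sum_eq_zero fun i _ => ?_
        rw [if_neg (by omega)]
      have h5 : degree Q ≤ (k : WithBot ℕ) := natDegree_le_iff_degree_le.1 h4
      have h6 := (hdeg.trans h3).trans h5
      have h7 : k + 1 ≤ k := by exact_mod_cast h6
      omega
    have hsum : ∀ i0, i0 ≤ k → (∑ i ∈ Finset.range (k + 1), if k - i0 = k - i then s i else 0) =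
        s i0 := by
      intro i0 hi0
      rw [Finset.sum_eq_single i0]
      · rw [if_pos rfl]
      · intro b hb hb0
        have := Finset.mem_range.1 hb
        rw [if_neg (by omega)]
      · intro h
        exact absurd (Finset.mem_range.2 (by omega)) h
    have hs0 : ∀ i, i ≤ k → s i = 0 := by
      have hlt : ∀ i, i < k → s i = 0 := by
        intro i hi
        have h3 := hQc (k - i)
        rw [hQ0, coeff_zero, hsum i hi.le, if_neg (by omega), sub_zero] at h3
        exact h3.symm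
      intro i hi
      rcases hi.lt_or_eq with h | h
      · exact hlt i h
      · have h3 := hQc (k - k)
        rw [hQ0, coeff_zero, hsum k le_rfl, if_pos (Nat.sub_self k), hlt 0 (by omega), sub_zero] at h3
        rw [h]
        exact h3.symm
    have hall : ∀ j, s j = 0 := by
      intro j
      induction j using Nat.strong_induction_on with
      | _ j ih =>
        rcases Nat.lt_or_ge k j with h | h
        · obtain ⟨j', rfl⟩ : ∃ j', j = j' + (k + 1) := ⟨j - (k + 1), by omega⟩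
          rw [hs, ih (j' + 1) (by omega), ih j' (by omega), add_zero]
        · exact hs0 j h
    obtain ⟨j, hj⟩ := hne
    exact hj (hall j)
  -- the polynomial
  have hlC : (l : ℂ) ^ (k + 1) = (l : ℂ) + 1 := by
    exact_mod_cast congrArg (fun x : ℝ => (x : ℂ)) hln
  have hPl : (SEQ_P k (l : ℂ)).eval (l : ℂ) ≠ 0 := by
    rw [SEQ_eval]
    have e1 : ∑ i ∈ Finset.range (k + 1), (l : ℂ) ^ i * (l : ℂ) ^ (k - i) =
        (((k + 1 : ℕ) : ℝ) * l ^ k : ℝ) := by
      rw [Finset.sum_congr rfl (g := fun _ => (l : ℂ) ^ k)]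
      · rw [Finset.sum_const, Finset.card_range, nsmul_eq_mul]
        push_cast
        ring
      · intro i hi
        have := Finset.mem_range.1 hi
        rw [← pow_add]
        congr 1
        omega
    rw [e1, sub_ne_zero]
    intro h3
    have h4 : (((k + 1 : ℕ) : ℝ) * l ^ k : ℝ) = 1 := by exact_mod_cast h3
    have h5 : 1 ≤ l ^ k := one_le_pow₀ hl1.le
    have h6 : (2 : ℝ) ≤ ((k + 1 : ℕ) : ℝ) := by exact_mod_cast (by omega : 2 ≤ k + 1)
    nlinarith
  have hroots : ∀ μ : ℂ, (SEQ_P k (l : ℂ)).eval μ = 0 → ‖μ‖ < l := by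
    intro μ h0
    have hne' : μ ≠ (l : ℂ) := by
      rintro rfl
      exact hPl h0
    refine hμ μ ?_ hne'
    rw [SEQ_eval, sub_eq_zero] at h0
    have e1 := geom_sum₂_mul μ (l : ℂ) (k + 1)
    simp only [Nat.add_sub_cancel] at e1
    rw [h0, one_mul, hlC] at e1
    linear_combination -e1
  obtain ⟨hdeg, hmonic⟩ := SEQ_deg k hk (l : ℂ)
  have hconst : ∀ j : ℕ, (∑ i ∈ Finset.range ((SEQ_P k (l : ℂ)).natDegree + 1),
      (SEQ_P k (l : ℂ)).coeff i * ((s (j + i) : ℚ) : ℂ)) / (l : ℂ) ^ j = (v 0 : ℂ) := by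
    intro j
    have e1 : ∑ i ∈ Finset.range ((SEQ_P k (l : ℂ)).natDegree + 1),
        (SEQ_P k (l : ℂ)).coeff i * ((s (j + i) : ℚ) : ℂ) = ((v j : ℝ) : ℂ) := by
      rw [hdeg]
      have e2 : ∀ i ∈ Finset.range (k + 1), (SEQ_P k (l : ℂ)).coeff i * ((s (j + i) : ℚ) : ℂ) =
          (l : ℂ) ^ (k - i) * ((s (j + i) : ℚ) : ℂ) -
            (if i = 0 then ((s (j + i) : ℚ) : ℂ) else 0) := by
        intro i hi
        rw [SEQ_coeff, if_pos (Finset.mem_range.1 hi)]
        split_ifs <;> ring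
      rw [Finset.sum_congr rfl e2, Finset.sum_sub_distrib, Finset.sum_ite_eq',
        if_pos (Finset.mem_range.2 (by omega)), add_zero]
      simp only [hv]
      push_cast
      rfl
    have hl' : (l : ℂ) ^ j ≠ 0 := pow_ne_zero _ (by exact_mod_cast hl0.ne')
    rw [e1, hvj j, div_eq_iff hl']
    push_cast
    ring
  have hlim := h2 l (SEQ_P k (l : ℂ)) hl0 hmonic hroots (fun j => ((s j : ℚ) : ℂ)) (v 0 : ℂ)
    (by
      simp only [hconst]
      exact tendsto_const_nhds)
  have hL : ((v 0 : ℝ) : ℂ) / (SEQ_P k (l : ℂ)).eval (l : ℂ) ≠ 0 :=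
    div_ne_zero (by exact_mod_cast hv0) hPl
  obtain ⟨J, hJ⟩ := Filter.eventually_atTop.1 (hlim.eventually_ne hL)
  refine ⟨J, fun j hj h0 => hJ j hj ?_⟩
  rw [h0, Rat.cast_zero, zero_div]

end Pool.Agent.ISL
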